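import Pool.Agent.helper26.EC.SpecE

set_option autoImplicit false

namespace Pool.Agent.EC

open Finset ArithmeticFunction
open Pool.Agent.CH (Win rgh dl eU Mo ClP ClB)
open Pool.Agent.CHS (PB WUp)

private lemma EDT_large (κ c C K G e : ℝ) (hκ : 0 < κ) (hc : 0 < c) (he : 0 < e) :
    ∃ N₀ : ℕ, ∀ N : ℕ, N₀ ≤ N → (4 : ℝ) ≤ N ∧ 1 ≤ Real.log N ∧
      Real.log N ^ (19 / 20 : ℝ) ≤ κ * Real.log N ∧ G ≤ e * Real.log N ∧
      C * Real.log N ^ 2 ≤ e * (N : ℝ) ^ (3 / 50 : ℝ) ∧ K * Real.log N ≤ e * (N : ℝ) ^ c := by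
  have h1 : ∀ᶠ x : ℝ in Filter.atTop, (4 : ℝ) ≤ x := Filter.eventually_ge_atTop 4
  have h2 : ∀ᶠ x : ℝ in Filter.atTop, max 1 (max ((1 / κ) ^ 20) (G / e)) ≤ Real.log x :=
    Real.tendsto_log_atTop.eventually_ge_atTop _
  have h3 : ∀ᶠ x : ℝ in Filter.atTop, C * Real.log x ^ 2 ≤ e * x ^ (3 / 50 : ℝ) := by
    have h := (isLittleO_log_rpow_rpow_atTop 2 (show (0 : ℝ) < 3 / 50 by norm_num)).bound
      (c := e / (|C| + 1)) (by positivity)
    filter_upwards [h, Filter.eventually_ge_atTop 1] with x hx hx1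
    rw [Real.norm_eq_abs, Real.norm_eq_abs, abs_of_nonneg (Real.rpow_nonneg (by linarith) (3 / 50 : ℝ)),
      Real.rpow_two, abs_of_nonneg (sq_nonneg _)] at hx
    have hC : C ≤ |C| + 1 := by
      have := le_abs_self C
      linarith
    calc C * Real.log x ^ 2 ≤ (|C| + 1) * Real.log x ^ 2 :=
          mul_le_mul_of_nonneg_right hC (sq_nonneg _)
      _ ≤ (|C| + 1) * (e / (|C| + 1) * x ^ (3 / 50 : ℝ)) :=
          mul_le_mul_of_nonneg_left hx (by positivity)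
      _ = e * x ^ (3 / 50 : ℝ) := by field_simp
  have h4 : ∀ᶠ x : ℝ in Filter.atTop, K * Real.log x ≤ e * x ^ c := by
    have h := (isLittleO_log_rpow_atTop hc).bound (c := e / (|K| + 1)) (by positivity)
    filter_upwards [h, Filter.eventually_ge_atTop 1] with x hx hx1
    rw [Real.norm_eq_abs, Real.norm_eq_abs, abs_of_nonneg (Real.rpow_nonneg (by linarith) c),
      abs_of_nonneg (Real.log_nonneg hx1)] at hx
    have hC : K ≤ |K| + 1 := by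
      have := le_abs_self K
      linarith
    calc K * Real.log x ≤ (|K| + 1) * Real.log x :=
          mul_le_mul_of_nonneg_right hC (Real.log_nonneg hx1)
      _ ≤ (|K| + 1) * (e / (|K| + 1) * x ^ c) :=
          mul_le_mul_of_nonneg_left hx (by positivity)
      _ = e * x ^ c := by field_simp
  have h := (tendsto_natCast_atTop_atTop (R := ℝ)).eventually (h1.and (h2.and (h3.and h4)))
  rw [Filter.eventually_atTop] at h
  obtain ⟨N₀, hN₀⟩ := h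
  refine ⟨N₀, fun N hN => ?_⟩
  obtain ⟨a1, a2, a3, a4⟩ := hN₀ N hN
  have b1 : 1 ≤ Real.log N := (le_max_left _ _).trans a2
  have b2 : (1 / κ) ^ 20 ≤ Real.log N := (le_max_left _ _).trans ((le_max_right _ _).trans a2)
  have b3 : G / e ≤ Real.log N := (le_max_right _ _).trans ((le_max_right _ _).trans a2)
  refine ⟨a1, b1, ?_, ?_, a3, a4⟩
  · have hL0 : 0 < Real.log N := by linarith
    have e1 : 1 / κ ≤ Real.log N ^ (1 / 20 : ℝ) := by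
      have e2 := Real.rpow_le_rpow (by positivity) b2 (show (0 : ℝ) ≤ 1 / 20 by norm_num)
      rw [← Real.rpow_natCast, ← Real.rpow_mul (by positivity)] at e2
      norm_num at e2
      rw [one_div]
      exact e2
    have e3 : Real.log N = Real.log N ^ (19 / 20 : ℝ) * Real.log N ^ (1 / 20 : ℝ) := by
      rw [← Real.rpow_add hL0]
      norm_num
    have e4 : 0 < Real.log N ^ (19 / 20 : ℝ) := Real.rpow_pos_of_pos hL0 _
    have e5 : Real.log N ^ (19 / 20 : ℝ) * (1 / κ) ≤ Real.log N := by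
      nth_rw 2 [e3]
      exact mul_le_mul_of_nonneg_left e1 e4.le
    rw [mul_one_div, div_le_iff₀ hκ] at e5
    linarith
  · rw [div_le_iff₀ he] at b3
    linarith

private lemma EDT_fN (N j : ℕ) : 0 ≤ fN N j ∧ fN N j ≤ 1 := by
  unfold fN tri
  refine ⟨le_max_left _ _, max_le (by norm_num) ?_⟩
  have : 0 ≤ |Real.log j - vN N| / (1 / (N : ℝ)) := by positivity
  linarith

private lemma EDT_wt (K Q : ℝ) (l : ℕ → ℝ) (h : Adm K Q l) (a : ℕ) :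
    wt l a ≤ K * (#a.divisors : ℝ) := by
  unfold wt
  calc ∑ m ∈ a.divisors, l m ≤ ∑ m ∈ a.divisors, K :=
        Finset.sum_le_sum fun m _ => (le_abs_self _).trans (h.1 m)
    _ = K * (#a.divisors : ℝ) := by rw [Finset.sum_const, nsmul_eq_mul, mul_comm]

/-- the primes of the edge interval -/
private noncomputable def EDT_P (N : ℕ) (δ : ℝ) : Finset ℕ :=
  (Icc 1 ⌊(N : ℝ) ^ (1 + 2 * δ)⌋₊).filter fun q : ℕ => q.Prime ∧ (N : ℝ) ^ (1 - 3 * δ) ≤ (q : ℝ) ∧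
    (q : ℝ) < (N : ℝ) ^ (1 + 2 * δ)

private lemma EDT_mem (N : ℕ) (δ : ℝ) (q : ℕ) : q ∈ EDT_P N δ ↔
    q.Prime ∧ (N : ℝ) ^ (1 - 3 * δ) ≤ (q : ℝ) ∧ (q : ℝ) < (N : ℝ) ^ (1 + 2 * δ) := by
  unfold EDT_P
  rw [Finset.mem_filter, Finset.mem_Icc]
  constructor
  · exact fun h => h.2
  · intro h
    exact ⟨⟨h.1.one_lt.le, Nat.le_floor h.2.2.le⟩, h⟩

private lemma EDT_card (N : ℕ) (δ : ℝ) : (#(EDT_P N δ) : ℝ) ≤ (N : ℝ) ^ (1 + 2 * δ) := by
  have h1 : #(EDT_P N δ) ≤ ⌊(N : ℝ) ^ (1 + 2 * δ)⌋₊ := by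
    unfold EDT_P
    refine (Finset.card_filter_le _ _).trans ?_
    simp
  calc (#(EDT_P N δ) : ℝ) ≤ (⌊(N : ℝ) ^ (1 + 2 * δ)⌋₊ : ℝ) := by exact_mod_cast h1
    _ ≤ (N : ℝ) ^ (1 + 2 * δ) := Nat.floor_le (Real.rpow_nonneg (Nat.cast_nonneg _) _)

private lemma EDT_mer (CM : ℝ) (hCM : 0 < CM) (hM : ∀ a b : ℝ, 2 ≤ a → a ≤ b →
    ∑ p ∈ (Icc 1 ⌊b⌋₊).filter (fun p : ℕ => p.Prime ∧ a ≤ (p : ℝ)), 1 / (p : ℝ) ≤
    Real.log (Real.log b / Real.log a) + CM / Real.log a) (N : ℕ) (hN : (4 : ℝ) ≤ N)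
    (hL : 1 ≤ Real.log N) (δ : ℝ) (hδ : 0 < δ) (hδ2 : δ ≤ 1 / 50) :
    ∑ q ∈ EDT_P N δ, 1 / (q : ℝ) ≤ 10 * δ + 2 * CM / Real.log N := by
  have hN0 : (0 : ℝ) < N := by linarith
  have hN1 : (1 : ℝ) ≤ N := by linarith
  have hL0 : 0 < Real.log N := by linarith
  have ha : 2 ≤ (N : ℝ) ^ (1 - 3 * δ) := by
    calc (2 : ℝ) = (4 : ℝ) ^ (1 / 2 : ℝ) := by
          rw [← Real.sqrt_eq_rpow]
          rw [show (4 : ℝ) = 2 ^ 2 by norm_num, Real.sqrt_sq (by norm_num)]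
      _ ≤ (N : ℝ) ^ (1 / 2 : ℝ) := Real.rpow_le_rpow (by norm_num) hN (by norm_num)
      _ ≤ (N : ℝ) ^ (1 - 3 * δ) := Real.rpow_le_rpow_of_exponent_le hN1 (by linarith)
  have hab : (N : ℝ) ^ (1 - 3 * δ) ≤ (N : ℝ) ^ (1 + 2 * δ) :=
    Real.rpow_le_rpow_of_exponent_le hN1 (by linarith)
  have h := hM _ _ ha hab
  have e0 : ∑ q ∈ EDT_P N δ, 1 / (q : ℝ) ≤ ∑ p ∈ (Icc 1 ⌊(N : ℝ) ^ (1 + 2 * δ)⌋₊).filter
      (fun p : ℕ => p.Prime ∧ (N : ℝ) ^ (1 - 3 * δ) ≤ (p : ℝ)), 1 / (p : ℝ) := by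
    apply Finset.sum_le_sum_of_subset_of_nonneg
    · intro q hq
      have hq' := (EDT_mem N δ q).1 hq
      rw [Finset.mem_filter, Finset.mem_Icc]
      exact ⟨⟨hq'.1.one_lt.le, Nat.le_floor hq'.2.2.le⟩, hq'.1, hq'.2.1⟩
    · intro q _ _
      positivity
  refine e0.trans (h.trans ?_)
  rw [Real.log_rpow hN0, Real.log_rpow hN0, mul_div_mul_right _ _ hL0.ne']
  have h3 : 0 < 1 - 3 * δ := by linarith
  apply add_le_add
  · have h4 : 0 < (1 + 2 * δ) / (1 - 3 * δ) := by positivity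
    refine (Real.log_le_sub_one_of_pos h4).trans ?_
    have h5 : (1 + 2 * δ) / (1 - 3 * δ) - 1 = 5 * δ / (1 - 3 * δ) := by
      rw [div_sub_one h3.ne']
      congr 1
      ring
    rw [h5, div_le_iff₀ h3]
    nlinarith
  · rw [div_le_div_iff₀ (by positivity) hL0]
    have h6 : CM * Real.log N ≤ 2 * CM * ((1 - 3 * δ) * Real.log N) := by
      have h7 : 0 < CM * Real.log N := by positivity
      nlinarith
    exact h6

open Classical in
/-- the sum over the primes of the edge interval -/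
private lemma EDT_A (C₀ κ C K ε : ℝ) (N : ℕ) (δ : ℝ) (l : ℕ → ℝ) (hC₀ : 0 < C₀) (hκ : 0 < κ)
    (hκ2 : κ ≤ 1 / 20) (hN : (4 : ℝ) ≤ N) (hL : 1 ≤ Real.log N)
    (hδ : 0 < δ) (hδ2 : δ ≤ 1 / 50) (hmt0 : 0 ≤ mt ((N : ℝ) ^ (1 / 2 - ε)) l)
    (hmt : mt ((N : ℝ) ^ (1 / 2 - ε)) l ≤ K / Real.log N)
    (hwt : ∀ a : ℕ, 1 ≤ a → 0 ≤ wt l a)
    (hCOR : ∀ d a : ℕ, (d : ℝ) ≤ (N : ℝ) ^ (6 / 5 : ℝ) → rgh ((N : ℝ) ^ κ) d →
      ∑ j ∈ Win N with d ∣ j ∧ rgh ((N : ℝ) ^ κ) (j / d) ∧ j % 30 = a, fN N j * wt l (j - 6) ≤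
      C₀ * (N : ℝ) ^ 2 / (d * Real.log ((N : ℝ) ^ κ)) * mt ((N : ℝ) ^ (1 / 2 - ε)) l +
        (N : ℝ) ^ (9 / 10 : ℝ)) :
    ∑ m ∈ Win N with m % 30 = 7, (#(m.primeFactors.filter fun q : ℕ =>
      ((N : ℝ) ^ (1 - 3 * δ) ≤ (q : ℝ) ∧ (q : ℝ) < (N : ℝ) ^ (1 + 2 * δ)) ∧ rgh ((N : ℝ) ^ κ) m) : ℝ) *
        (fN N m * wt l (m - 6)) ≤
      C₀ * K / κ * (N : ℝ) ^ 2 / Real.log N ^ 2 * (∑ q ∈ EDT_P N δ, 1 / (q : ℝ)) +
        (N : ℝ) ^ (1 + 2 * δ) * (N : ℝ) ^ (9 / 10 : ℝ) := by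
  have hN0 : (0 : ℝ) < N := by linarith
  have hN1 : (1 : ℝ) < N := by linarith
  have hL0 : 0 < Real.log N := by linarith
  have hNn : 4 ≤ N := by exact_mod_cast hN
  have hpos : ∀ m ∈ Win N, 0 ≤ fN N m * wt l (m - 6) := by
    intro m hm
    apply mul_nonneg (EDT_fN N m).1
    apply hwt
    have h1 : N ^ 3 < m := by
      unfold Win at hm
      exact (Finset.mem_Ioc.1 hm).1
    have h2 : 4 ^ 3 ≤ N ^ 3 := Nat.pow_le_pow_left hNn 3
    omega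
  -- first: bound the number of primes by the sum over `EDT_P`
  have s1 : ∑ m ∈ Win N with m % 30 = 7, (#(m.primeFactors.filter fun q : ℕ =>
      ((N : ℝ) ^ (1 - 3 * δ) ≤ (q : ℝ) ∧ (q : ℝ) < (N : ℝ) ^ (1 + 2 * δ)) ∧ rgh ((N : ℝ) ^ κ) m) : ℝ) *
        (fN N m * wt l (m - 6)) ≤
      ∑ m ∈ Win N with m % 30 = 7, ∑ q ∈ EDT_P N δ,
        if q ∣ m ∧ rgh ((N : ℝ) ^ κ) (m / q) then fN N m * wt l (m - 6) else 0 := by
    refine Finset.sum_le_sum fun m hm => ?_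
    have hmW := (Finset.mem_filter.1 hm).1
    rw [← Finset.sum_filter, Finset.sum_const, nsmul_eq_mul]
    apply mul_le_mul_of_nonneg_right _ (hpos m hmW)
    have hsub : (m.primeFactors.filter fun q : ℕ =>
        ((N : ℝ) ^ (1 - 3 * δ) ≤ (q : ℝ) ∧ (q : ℝ) < (N : ℝ) ^ (1 + 2 * δ)) ∧ rgh ((N : ℝ) ^ κ) m) ⊆
        (EDT_P N δ).filter fun q => q ∣ m ∧ rgh ((N : ℝ) ^ κ) (m / q) := by
      intro q hq
      rw [Finset.mem_filter] at hq ⊢
      obtain ⟨hqm, hq1, hq2⟩ := hq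
      have hqp := Nat.prime_of_mem_primeFactors hqm
      have hqd := Nat.dvd_of_mem_primeFactors hqm
      refine ⟨(EDT_mem N δ q).2 ⟨hqp, hq1⟩, hqd, ?_, ?_⟩
      · exact (Nat.div_pos (Nat.le_of_dvd (Nat.pos_of_ne_zero hq2.1) hqd) hqp.pos).ne'
      · intro p hp hpd
        exact hq2.2 p hp (hpd.trans (Nat.div_dvd_of_dvd hqd))
    exact_mod_cast Finset.card_le_card hsub
  refine s1.trans ?_
  rw [Finset.sum_comm]
  -- each prime
  have s2 : ∀ q ∈ EDT_P N δ, ∑ m ∈ Win N with m % 30 = 7,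
      (if q ∣ m ∧ rgh ((N : ℝ) ^ κ) (m / q) then fN N m * wt l (m - 6) else 0) ≤
      C₀ * K / κ * (N : ℝ) ^ 2 / Real.log N ^ 2 * (1 / (q : ℝ)) + (N : ℝ) ^ (9 / 10 : ℝ) := by
    intro q hq
    obtain ⟨hqp, hq1, hq2⟩ := (EDT_mem N δ q).1 hq
    have hq65 : (q : ℝ) ≤ (N : ℝ) ^ (6 / 5 : ℝ) :=
      hq2.le.trans (Real.rpow_le_rpow_of_exponent_le hN1.le (by linarith))
    have hqz : (N : ℝ) ^ κ < q :=
      (Real.rpow_lt_rpow_of_exponent_lt hN1 (by linarith)).trans_le hq1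
    have hqr : rgh ((N : ℝ) ^ κ) q := by
      refine ⟨hqp.ne_zero, fun p hp hpq => ?_⟩
      rw [(Nat.prime_dvd_prime_iff_eq hp hqp).1 hpq]
      exact hqz
    have h := hCOR q 7 hq65 hqr
    have e1 : ∑ m ∈ Win N with m % 30 = 7,
        (if q ∣ m ∧ rgh ((N : ℝ) ^ κ) (m / q) then fN N m * wt l (m - 6) else 0) =
        ∑ j ∈ Win N with q ∣ j ∧ rgh ((N : ℝ) ^ κ) (j / q) ∧ j % 30 = 7, fN N j * wt l (j - 6) := by
      rw [← Finset.sum_filter, Finset.filter_filter]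
      apply Finset.sum_congr _ (fun _ _ => rfl)
      ext m
      simp only [Finset.mem_filter]
      tauto
    rw [e1]
    refine h.trans ?_
    apply add_le_add _ (le_refl _)
    rw [Real.log_rpow hN0]
    have hq0 : (0 : ℝ) < q := by exact_mod_cast hqp.pos
    calc C₀ * (N : ℝ) ^ 2 / (q * (κ * Real.log N)) * mt ((N : ℝ) ^ (1 / 2 - ε)) l ≤
          C₀ * (N : ℝ) ^ 2 / (q * (κ * Real.log N)) * (K / Real.log N) :=
          mul_le_mul_of_nonneg_left hmt (by positivity)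
      _ = C₀ * K / κ * (N : ℝ) ^ 2 / Real.log N ^ 2 * (1 / (q : ℝ)) := by
          field_simp
  refine (Finset.sum_le_sum s2).trans ?_
  rw [Finset.sum_add_distrib, ← Finset.mul_sum, Finset.sum_const, nsmul_eq_mul]
  apply add_le_add (le_refl _)
  exact mul_le_mul_of_nonneg_right (EDT_card N δ) (Real.rpow_nonneg hN0.le _)

theorem EDT (hCOR : COR_stmt) (hTLM : TLM_stmt) (hPPW : PPW_stmt) (hMTA : MTA_stmt)
    (hMER : Pool.Agent.CH.MER_stmt) : EDT_stmt := by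
  classical
  intro r a b hAd ε ε' K hε hε' hK
  obtain ⟨C₀, hC₀, hCOR⟩ := hCOR
  obtain ⟨N₃, hN₃⟩ := hCOR ε K hε hK
  obtain ⟨κ, C, hκ, hκ2, hC, N₁, hN₁⟩ := hTLM r a b hAd
  obtain ⟨c, hc, N₂, hN₂⟩ := hPPW r a b hAd
  obtain ⟨CM, hCM, hM⟩ := hMER
  refine ⟨min (1 / 50) (ε' * κ / (40 * C * C₀ * K)), lt_min (by norm_num) (by positivity), ?_⟩
  intro δ hδ hδ0
  have hδ2 : δ ≤ 1 / 50 := hδ0.trans (min_le_left _ _)
  have hδ3 : δ ≤ ε' * κ / (40 * C * C₀ * K) := hδ0.trans (min_le_right _ _)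
  obtain ⟨N₄, hN₄⟩ := EDT_large κ c C K (C * C₀ * K / κ * (2 * CM)) (ε' / 4) hκ hc (by positivity)
  refine ⟨max (max N₁ N₂) (max N₃ N₄), ?_⟩
  intro N hNN l hl hwt hmt
  have hNN₁ : N₁ ≤ N := (le_max_left _ _).trans ((le_max_left _ _).trans hNN)
  have hNN₂ : N₂ ≤ N := (le_max_right _ _).trans ((le_max_left _ _).trans hNN)
  have hNN₃ : N₃ ≤ N := (le_max_left _ _).trans ((le_max_right _ _).trans hNN)
  have hNN₄ : N₄ ≤ N := (le_max_right _ _).trans ((le_max_right _ _).trans hNN)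
  obtain ⟨hN, hL, hy, hG, hC2, hK2⟩ := hN₄ N hNN₄
  have hN0 : (0 : ℝ) < N := by linarith
  have hN1 : (1 : ℝ) ≤ N := by linarith
  have hL0 : 0 < Real.log N := by linarith
  have hNn : 4 ≤ N := by exact_mod_cast hN
  have hmt0 := hMTA.1 K _ l hl hwt
  have hA := EDT_A C₀ κ C K ε N δ l hC₀ hκ hκ2 hN hL hδ hδ2 hmt0 hmt hwt (by
    intro d a' hd hr
    refine (hN₃ N hNN₃ ((N : ℝ) ^ κ) ?_ ?_ l hl hwt d a' hd hr).2
    · unfold yN dl
      rw [Real.rpow_def_of_pos hN0]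
      apply Real.exp_le_exp.2
      linarith
    · exact Real.rpow_le_rpow_of_exponent_le hN1 hκ2)
  have hS := EDT_mer CM hCM hM N hN hL δ hδ hδ2
  have hP := hN₂ N hNN₂
  have hpos : ∀ m ∈ Win N, 0 ≤ fN N m * wt l (m - 6) := by
    intro m hm
    apply mul_nonneg (EDT_fN N m).1
    apply hwt
    have h1 : N ^ 3 < m := by
      unfold Win at hm
      exact (Finset.mem_Ioc.1 hm).1
    have h2 : 4 ^ 3 ≤ N ^ 3 := Nat.pow_le_pow_left hNn 3
    omega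
  -- the two parts
  have s1 : ∑ m ∈ Win N with m % 30 = 7, TLe N a b δ m * fN N m * wt l (m - 6) ≤
      C * Real.log N * (∑ m ∈ Win N with m % 30 = 7, (#(m.primeFactors.filter fun q : ℕ =>
      ((N : ℝ) ^ (1 - 3 * δ) ≤ (q : ℝ) ∧ (q : ℝ) < (N : ℝ) ^ (1 + 2 * δ)) ∧ rgh ((N : ℝ) ^ κ) m) : ℝ) *
        (fN N m * wt l (m - 6))) +
      ∑ m ∈ Win N with m % 30 = 7, (∑ p ∈ (TUP N a b m).filter (fun p => ¬ (m / ∏ i, p i).Prime),
        vonMangoldt (m / ∏ i, p i)) * (fN N m * wt l (m - 6)) := by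
    rw [Finset.mul_sum, ← Finset.sum_add_distrib]
    refine Finset.sum_le_sum fun m hm => ?_
    have hmW := (Finset.mem_filter.1 hm).1
    have h := mul_le_mul_of_nonneg_right (hN₁ N hNN₁ δ m hmW) (hpos m hmW)
    calc TLe N a b δ m * fN N m * wt l (m - 6) = TLe N a b δ m * (fN N m * wt l (m - 6)) := by ring
      _ ≤ _ := h
      _ = _ := by ring
  have s2 : ∑ m ∈ Win N with m % 30 = 7, (∑ p ∈ (TUP N a b m).filter (fun p => ¬ (m / ∏ i, p i).Prime),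
        vonMangoldt (m / ∏ i, p i)) * (fN N m * wt l (m - 6)) ≤ K * (N : ℝ) ^ (2 - c) := by
    have h1 : ∀ m : ℕ, 0 ≤ ∑ p ∈ (TUP N a b m).filter (fun p => ¬ (m / ∏ i, p i).Prime),
        vonMangoldt (m / ∏ i, p i) := fun m => Finset.sum_nonneg fun _ _ => vonMangoldt_nonneg
    calc ∑ m ∈ Win N with m % 30 = 7, (∑ p ∈ (TUP N a b m).filter (fun p => ¬ (m / ∏ i, p i).Prime),
        vonMangoldt (m / ∏ i, p i)) * (fN N m * wt l (m - 6))
        ≤ ∑ m ∈ Win N, (∑ p ∈ (TUP N a b m).filter (fun p => ¬ (m / ∏ i, p i).Prime),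
        vonMangoldt (m / ∏ i, p i)) * (fN N m * wt l (m - 6)) := by
          apply Finset.sum_le_sum_of_subset_of_nonneg (Finset.filter_subset _ _)
          intro m hm _
          exact mul_nonneg (h1 m) (hpos m hm)
      _ ≤ ∑ m ∈ Win N, K * ((∑ p ∈ (TUP N a b m).filter (fun p => ¬ (m / ∏ i, p i).Prime),
        vonMangoldt (m / ∏ i, p i)) * (#(m - 6).divisors : ℝ)) := by
          refine Finset.sum_le_sum fun m hm => ?_
          have h2 : fN N m * wt l (m - 6) ≤ K * (#(m - 6).divisors : ℝ) := by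
            have h3 := EDT_wt K _ l hl (m - 6)
            have h4 := (EDT_fN N m).2
            have h5 := (EDT_fN N m).1
            have h6 : 0 ≤ K * (#(m - 6).divisors : ℝ) := by positivity
            calc fN N m * wt l (m - 6) ≤ fN N m * (K * (#(m - 6).divisors : ℝ)) :=
                  mul_le_mul_of_nonneg_left h3 h5
              _ ≤ 1 * (K * (#(m - 6).divisors : ℝ)) := mul_le_mul_of_nonneg_right h4 h6
              _ = _ := one_mul _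
          calc _ ≤ (∑ p ∈ (TUP N a b m).filter (fun p => ¬ (m / ∏ i, p i).Prime),
                vonMangoldt (m / ∏ i, p i)) * (K * (#(m - 6).divisors : ℝ)) :=
                mul_le_mul_of_nonneg_left h2 (h1 m)
            _ = _ := by ring
      _ = K * ∑ m ∈ Win N, ((∑ p ∈ (TUP N a b m).filter (fun p => ¬ (m / ∏ i, p i).Prime),
        vonMangoldt (m / ∏ i, p i)) * (#(m - 6).divisors : ℝ)) := by rw [Finset.mul_sum]
      _ ≤ K * (N : ℝ) ^ (2 - c) := mul_le_mul_of_nonneg_left hP hK.le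
  -- numerical bounds
  have t1 : C * Real.log N * (C₀ * K / κ * (N : ℝ) ^ 2 / Real.log N ^ 2 *
      (∑ q ∈ EDT_P N δ, 1 / (q : ℝ))) ≤ (ε' / 4 + ε' / 4) * ((N : ℝ) ^ 2 / Real.log N) := by
    have e1 : C * C₀ * K / κ * (∑ q ∈ EDT_P N δ, 1 / (q : ℝ)) ≤ ε' / 4 + ε' / 4 := by
      have e2 : C * C₀ * K / κ * (∑ q ∈ EDT_P N δ, 1 / (q : ℝ)) ≤
          C * C₀ * K / κ * (10 * δ + 2 * CM / Real.log N) :=
        mul_le_mul_of_nonneg_left hS (by positivity)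
      have e3 : C * C₀ * K / κ * (10 * δ) ≤ ε' / 4 := by
        rw [le_div_iff₀ (by positivity)] at hδ3
        rw [div_mul_eq_mul_div, div_le_iff₀ hκ]
        linarith
      have e4 : C * C₀ * K / κ * (2 * CM / Real.log N) ≤ ε' / 4 := by
        rw [← mul_div_assoc, div_le_iff₀ hL0]
        exact hG
      calc _ ≤ _ := e2
        _ = C * C₀ * K / κ * (10 * δ) + C * C₀ * K / κ * (2 * CM / Real.log N) := by ring
        _ ≤ _ := add_le_add e3 e4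
    calc _ = C * C₀ * K / κ * (∑ q ∈ EDT_P N δ, 1 / (q : ℝ)) * ((N : ℝ) ^ 2 / Real.log N) := by
          field_simp
      _ ≤ _ := mul_le_mul_of_nonneg_right e1 (by positivity)
  have t2 : C * Real.log N * ((N : ℝ) ^ (1 + 2 * δ) * (N : ℝ) ^ (9 / 10 : ℝ)) ≤
      ε' / 4 * ((N : ℝ) ^ 2 / Real.log N) := by
    have e1 : (N : ℝ) ^ (1 + 2 * δ) * (N : ℝ) ^ (9 / 10 : ℝ) ≤ (N : ℝ) ^ (97 / 50 : ℝ) := by
      rw [← Real.rpow_add hN0]
      exact Real.rpow_le_rpow_of_exponent_le hN1 (by linarith)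
    have e2 : (N : ℝ) ^ (97 / 50 : ℝ) * (N : ℝ) ^ (3 / 50 : ℝ) = (N : ℝ) ^ 2 := by
      rw [← Real.rpow_add hN0, ← Real.rpow_natCast]
      norm_num
    rw [← mul_div_assoc, le_div_iff₀ hL0]
    calc C * Real.log N * ((N : ℝ) ^ (1 + 2 * δ) * (N : ℝ) ^ (9 / 10 : ℝ)) * Real.log N
        ≤ C * Real.log N * (N : ℝ) ^ (97 / 50 : ℝ) * Real.log N := by
          apply mul_le_mul_of_nonneg_right _ hL0.le
          exact mul_le_mul_of_nonneg_left e1 (by positivity)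
      _ = (C * Real.log N ^ 2) * (N : ℝ) ^ (97 / 50 : ℝ) := by ring
      _ ≤ (ε' / 4 * (N : ℝ) ^ (3 / 50 : ℝ)) * (N : ℝ) ^ (97 / 50 : ℝ) :=
          mul_le_mul_of_nonneg_right hC2 (by positivity)
      _ = ε' / 4 * (N : ℝ) ^ 2 := by rw [← e2]; ring
  have t3 : K * (N : ℝ) ^ (2 - c) ≤ ε' / 4 * ((N : ℝ) ^ 2 / Real.log N) := by
    have e2 : (N : ℝ) ^ (2 - c) * (N : ℝ) ^ c = (N : ℝ) ^ 2 := by
      rw [← Real.rpow_add hN0, ← Real.rpow_natCast]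
      norm_num
    rw [← mul_div_assoc, le_div_iff₀ hL0]
    calc K * (N : ℝ) ^ (2 - c) * Real.log N = (K * Real.log N) * (N : ℝ) ^ (2 - c) := by ring
      _ ≤ (ε' / 4 * (N : ℝ) ^ c) * (N : ℝ) ^ (2 - c) :=
          mul_le_mul_of_nonneg_right hK2 (by positivity)
      _ = ε' / 4 * (N : ℝ) ^ 2 := by rw [← e2]; ring
  calc ∑ m ∈ Win N with m % 30 = 7, TLe N a b δ m * fN N m * wt l (m - 6) ≤ _ := s1
    _ ≤ C * Real.log N * (C₀ * K / κ * (N : ℝ) ^ 2 / Real.log N ^ 2 *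
          (∑ q ∈ EDT_P N δ, 1 / (q : ℝ)) + (N : ℝ) ^ (1 + 2 * δ) * (N : ℝ) ^ (9 / 10 : ℝ)) +
          K * (N : ℝ) ^ (2 - c) := by
        apply add_le_add _ s2
        exact mul_le_mul_of_nonneg_left hA (by positivity)
    _ = C * Real.log N * (C₀ * K / κ * (N : ℝ) ^ 2 / Real.log N ^ 2 *
          (∑ q ∈ EDT_P N δ, 1 / (q : ℝ))) +
          C * Real.log N * ((N : ℝ) ^ (1 + 2 * δ) * (N : ℝ) ^ (9 / 10 : ℝ)) +
          K * (N : ℝ) ^ (2 - c) := by ring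
    _ ≤ (ε' / 4 + ε' / 4) * ((N : ℝ) ^ 2 / Real.log N) + ε' / 4 * ((N : ℝ) ^ 2 / Real.log N) +
          ε' / 4 * ((N : ℝ) ^ 2 / Real.log N) := by linarith
    _ = ε' * (N : ℝ) ^ 2 / Real.log N := by ring

end Pool.Agent.EC
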